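import Pool.Agent.H67.SB.AUT
import Pool.Agent.H94.SB.BAL
import Pool.Agent.H11.SB.AVG
import Pool.Agent.H47.SB.CU
import Pool.Agent.H47.SB.LIFT
import Pool.Agent.H22.SB.BA
import Pool.Agent.H22.SB.POW
import Pool.Agent.H22.SB.F4
import Pool.Agent.H49.SB.INL
import Pool.Agent.H37.SB.CL
import Pool.Agent.H37.SB.BB
import Pool.Agent.H37.SB.Prd
import Pool.Agent.H37.SB.Small
import Pool.Agent.H37.SB.Main
import Pool.Agent.H37.SB.Finl

/-!
# Popular differences for squares: a barrier at the exponent 6

`ValidExponent` (in `Pool.Agent.H36Sq.Gen`) is the definition of the problem file, `LineFree`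
(in `Pool.Agent.H37.SB.Defs`) says that a set of points contains no full affine line.

A valid exponent smaller than `6` forces a power saving for the subsets of the affine spaces over
the field with four elements without full lines.

Proof: on `F_2^h × H` take a square free set `R` of pairs of cosets; on the coset `r` use the
quadratic labels multiplied by an element `γ_r` of the field with `2^K` elements, which averages
the slices `q(d) = s ≠ 0`; the points with `m = maj(a, b, c)` and `a + b ω + c ω²` in a line free
set have no solutions in the slices `s ≠ 0` and only trivial ones in the slice `s = 0`.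
-/

namespace Pool.Agent.Results.MP_22a11a_co.BarrierSix

open Pool.Agent.H36Sq Pool.Agent.H37.SB

theorem main : T_MAIN :=
  pf_MAIN (Pool.Agent.H11.SB.pf_AVG Pool.Agent.H67.SB.pf_AUT Pool.Agent.H94.SB.pf_BAL) pf_CL
    Pool.Agent.H47.SB.pf_CU Pool.Agent.H47.SB.pf_LIFT

theorem inl : T_INL :=
  Pool.Agent.H49.SB.pf_INL main pf_PRD Pool.Agent.H22.SB.pf_BA pf_BB Pool.Agent.H22.SB.pf_POW
    pf_LIM

/-- **Barrier.** If some `c < 6` is a valid exponent for squares, then every set of points of
`AG(k, 4)` without a full line has at most `4^((1 - e) k)` points, `e = (6 - c) / (6 (c - 1))`. -/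
theorem result :
    ∀ c : ℝ, ValidExponent c → c < 6 →
      ∀ (𝔽 : Type) [Field 𝔽] [Fintype 𝔽], Fintype.card 𝔽 = 4 →
        ∀ (k : ℕ) (L : Finset (Fin k → 𝔽)), LineFree L →
          (L.card : ℝ) ≤ (4 : ℝ) ^ ((1 - (6 - c) / (6 * (c - 1))) * k) :=
  pf_FINL pf_GE inl pf_NUM Pool.Agent.H22.SB.pf_F4

end Pool.Agent.Results.MP_22a11a_co.BarrierSix
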