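import Pool.Agent.H36Sq.Weight

/-!
# Popular differences for squares: every valid exponent is at least 5.019

For a biadditive map `m` over `ZMod 2` with a strong nondegeneracy property, the `ZMod 4` valued
function `zeta = 2 m(x,y) + m(x,x) + m(y,y) + m(x+y,x+y)` sums to zero over every square, while
three of the four values are asymptotically independent and uniform for every difference `d ≠ 0`.
Taking the points whose value lies in a well chosen subset of `(ZMod 4)^k` and tensor powers
gives the bound.
-/

namespace Pool.Agent.Results.MP_22a11a_co.ExponentAboveFive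

open Pool.Agent.H36Sq

/-- The numerical comparison, as a Boolean. -/
def chk (a b c d e : ℕ) : Bool :=
  Nat.ble (81 ^ a * 2 ^ b * (Nat.factorial c) ^ d) ((Nat.descFactorial e c) ^ d)

theorem choose_of_chk (a b c d e : ℕ) (h : chk a b c d e = true) :
    81 ^ a * 2 ^ b ≤ (Nat.choose e c) ^ d := by
  have h1 := Nat.le_of_ble_eq_true h
  rw [Nat.descFactorial_eq_factorial_mul_choose, mul_pow] at h1
  have h2 : 0 < (Nat.factorial c) ^ d := pow_pos (Nat.factorial_pos _) _
  have h3 : (81 ^ a * 2 ^ b) * (Nat.factorial c) ^ d ≤
      (Nat.choose e c) ^ d * (Nat.factorial c) ^ d := by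
    rw [mul_comm ((Nat.choose e c) ^ d)]
    exact h1
  exact Nat.le_of_mul_le_mul_right h3 h2

theorem chk_true : chk (132 * 1000) (10000 * 19) 132 (1000 + 19) 10000 = true := by
  decide +kernel

theorem bound (c : ℝ) (hc : ValidExponent c) (k r p s : ℕ) (hr : r < k) (hs : 0 < s)
    (h : chk (r * s) (k * p) r (s + p) k = true) : (5 : ℝ) + p / s ≤ c :=
  bound_of_weight c hc k r p s hr hs (choose_of_chk _ _ _ _ _ h)

/-- Every valid exponent for squares in `F_2^n × F_2^n` is at least `5.019`. -/
theorem result : ∀ c : ℝ, ValidExponent c → (5.019 : ℝ) ≤ c := by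
  intro c hc
  have h := bound c hc 10000 132 19 1000 (by norm_num) (by norm_num) chk_true
  refine le_trans ?_ h
  norm_num

end Pool.Agent.Results.MP_22a11a_co.ExponentAboveFive
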