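import Pool.Agent.H45.SQ.Final

/-!
# Popular differences for squares: `10` is a valid exponent, so `C` is finite

The proof has two parts. Part one (`Pool.Agent.H45.SQ.inverse_theorem`) is an inverse theorem for
the directional uniformity norm on `G × G`, `G` a finite vector space over `ZMod 2`, for the
directions `(1,0)`, `(0,1)`, `(1,1)`: a bounded function of large norm correlates with a product
`u(x) v(y) w(x+y) (-1)^{m(x,y)}`, `m` bilinear. Part two is a regularity lemma for factors made of
functions of `x`, `y`, `x + y` and of the values of bilinear maps, a counting lemma for squares
whose difference lies in a suitable subspace of bounded index, and an inequality for label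
distributions that gives the exponent `10`.
-/

namespace Pool.Agent.Results.MP_22a11a_co.FiniteExponent

open Pool.Agent.H36Sq

/-- `10` is a valid exponent for squares in `F_2^n × F_2^n`. In particular a valid exponent
exists, and the infimum `C` of the valid exponents is finite. -/
theorem result : ValidExponent 10 := Pool.Agent.H45.SQ.validExponent_ten

end Pool.Agent.Results.MP_22a11a_co.FiniteExponent
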