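import Pool.Agent.H45.SQ.DirNorm

/-!
# The inverse theorem behind popular differences for squares

Let `G` be a finite vector space over `ZMod 2`. A bounded function on `G × G` whose uniformity
norm with the directions `(1,0)`, `(0,1)`, `(1,1)` is large correlates with a product
`u(x) v(y) w(x+y) (-1)^{m(x,y)}`, where `u, v, w` are bounded and `m` is bilinear.
-/

namespace Pool.Agent.Results.MP_22a11a_co.InverseTheorem

open Finset Pool.Agent.H45.SQ
open scoped BigOperators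

/-- The inverse theorem for the directional norm. -/
theorem result : ∀ δ : ℝ, 0 < δ → ∃ c : ℝ, 0 < c ∧
    ∀ (G : Type) [AddCommGroup G] [Fintype G] [Module (ZMod 2) G] (f : G → G → ℂ),
      (∀ x y, ‖f x y‖ ≤ 1) → δ ≤ (dirNorm8 f).re →
      ∃ (u v w : G → ℂ) (m : G →ₗ[ZMod 2] G →ₗ[ZMod 2] ZMod 2),
        (∀ x, ‖u x‖ ≤ 1) ∧ (∀ x, ‖v x‖ ≤ 1) ∧ (∀ x, ‖w x‖ ≤ 1) ∧
        c ≤ ‖𝔼 x, 𝔼 y, f x y * u x * v y * w (x + y) * (-1) ^ (m x y).val‖ := by
  classical
  intro δ hδ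
  obtain ⟨c, hc, h⟩ := inverse_theorem δ hδ
  refine ⟨c, hc, ?_⟩
  intro G _ _ _ f hf hU
  rw [u8_re] at hU
  obtain ⟨u, v, w, m, hu, hv, hw, hm⟩ := h G f hf hU
  refine ⟨u, v, w, m, hu, hv, hw, ?_⟩
  have hs : ∀ a : ZMod 2, (-1 : ℂ) ^ a.val = sg a := by
    intro a
    have ha : a = 0 ∨ a = 1 := by
      revert a
      decide
    rcases ha with rfl | rfl
    · simp [sg]
    · have h1 : (1 : ZMod 2).val = 1 := rfl
      rw [h1]
      simp [sg]
  simp only [hs]
  exact hm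

end Pool.Agent.Results.MP_22a11a_co.InverseTheorem
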